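import Pool.Agent.R919.TR.Main

/-!
# Smallest subtorsors of sums of an arbitrary motive and elliptic curves

Let `c o` be the period matrix of an arbitrary polarised motive `M` over a field of algebraic numbers,
for example of the whole cohomology of an arbitrary smooth projective variety `X`, and let `c j`,
`j ≠ o`, be the period matrices of the first cohomology groups of pairwise non-isogenous elliptic
curves `E_j` without complex multiplication (there may be infinitely many of them). The torsor of the
isomorphisms of the de Rham and the Betti realisation which are given by motivic Galois theory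
contains the period matrix and is a subtorsor. The conjecture of Grothendieck implies that it is
contained in all other subtorsors which contain the period matrix, over all fields of algebraic
numbers (up to connected components).

The theorem: there is a set `S` of at most `dim M / 2` indices such that, for all finite sets of
indices outside `S` and for all fields `K` of algebraic numbers, the smallest `K`-subtorsor which
contains the period matrix of `M ⊕ ⨁ h^1(E_j)` is the full inverse image of the smallest
`K`-subtorsor of `M ⊕ ⨁ det h^1(E_j)`, and `det h^1(E_j) = ℚ(-1)`. So this subtorsor is as large as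
the one of `M ⊕ ℚ(-1)` permits: its group contains the product of the groups `SL(2)`. If the smallest
subtorsor of `M ⊕ ℚ(-1)` is the motivic one then the same holds for `M ⊕ ⨁ h^1(E_j)`. Nothing is
assumed on the motivic Galois group of `M`. The bound is sharp: take for `M` a sum of some of the
`h^1(E_j)`.

The proof: the Lie algebra of a subtorsor over the field of algebraic numbers is stable under the
automorphisms of `ℂ` over that field and under brackets, and contains the logarithmic derivatives of
the period matrix with respect to the derivations of `ℂ`. For the elliptic curves it contains the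
matrices of trace zero (a line which is stable would be defined over the algebraic numbers), and for
two of them the pairs of such matrices (otherwise there is an algebraic intertwiner). Let `S` be the
set of the indices whose part is a quotient of the part at `o`. For complex numbers `μ_i`, `i ∈ S`,
linearly independent over `ℚ`, an element with the components `μ_i diag(1, -1)` has the differences
`2 μ_i` of eigenvalues at `o`; as the set of these eigenvalues is symmetric, `2 |S| ≤ dim M`.
-/

open Matrix

namespace Pool.Agent.Results.MP_caab05_ag.FewExceptionalTorsors

open Pool.Agent.R919.TR

theorem result {J : Type} [DecidableEq J] {B : J → Type} [∀ j, Fintype (B j)]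
    [∀ j, DecidableEq (B j)] {t : ℂ} (ht : t ≠ 0) (c : ∀ j, Matrix (B j) (B j) ℂ)
    (hc : ∀ j, IsUnit (c j).det) (o : J) (Q R : Matrix (B o) (B o) ℂ)
    (hQa : ∀ a b, IsAlgebraic ℚ (Q a b)) (hQu : Q.det ≠ 0)
    (hR : ∀ a b, IsAlgebraic ℚ (R a b)) (w : ℤ) (hQ : (c o)ᵀ * Q * c o = t ^ w • R)
    (h1 : ∀ j, j ≠ o → IsEll t (c j))
    (h2 : ∀ i j, i ≠ o → j ≠ o → i ≠ j → NoHm (c i) (c j)) :
    ∃ S : Finset J, o ∉ S ∧ 2 * S.card ≤ Fintype.card (B o) ∧
      ∀ (ι : Type) [Fintype ι] [DecidableEq ι] (f : ι → J), Function.Injective f →
        (∀ i, f i ≠ o) → (∀ i, f i ∉ S) → ∀ K : Subfield ℂ, (∀ x ∈ K, IsAlgebraic ℚ x) →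
          Omega K (blocks (c o) fun i => c (f i)) = {X | ∃ y x, X = blocks y x ∧
            blocks y (dets x) ∈ Omega K (blocks (c o) (dets fun i => c (f i)))} :=
  main ht c hc o Q R hQa hQu hR w hQ h1 h2

end Pool.Agent.Results.MP_caab05_ag.FewExceptionalTorsors
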