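import Mathlib
import Pool.Agent.R351.GD.L.Tup

/-!
# Grothendieck's period conjecture in growing degree for almost all products of Legendre elliptic curves

For integers `t_i ≥ 2` let `X_t = E_{1/t_1} × ⋯ × E_{1/t_k}`, with `E_s : y² = x(x-1)(x-s)`. The field of the periods of `X_t`
is generated, up to algebraic numbers, by the `3k + 1` numbers `π`, `K(1/t_i)`, `E(1/t_i)`, `K(1 - 1/t_i)`, and for general
`t` its motivic Galois group has dimension `3k + 1`.

For all `k`, `q` there is a number `C` such that for all `δ` and arbitrary complex numbers `w_1, …, w_q`: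

1. In each interval `[n, n + H]` with `(H + 2) ^ ((δ + 2) ^ C) ≤ n` one can delete `q + 2` integers so that for all
   `k`-tuples of distinct remaining integers every relation of total degree at most `δ` over a number field of degree at
   most `δ` between `π`, the `w_j` and the `3k` numbers `K(1/t_i)`, `E(1/t_i)`, `K(1 - 1/t_i)` is trivial: the polynomial
   vanishes after the substitution of `π` and the `w_j`.
2. This holds for all but `C T ^ (k - (δ + 2) ^ (-C))` of the `k`-tuples of integers in `[2, T]`.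
3. In particular a nonzero polynomial of degree at most `δ` over a number field of degree at most `δ` which vanishes at
   the `3k + 1` periods is such a relation (as `π` is transcendental).

There is no bound for the heights of the coefficients, and the degrees may grow with `T`: all but
`C T ^ k exp (- (log T) ^ (1 / 2))` of the tuples satisfy no relation of degree at most `(log T) ^ (1 / (2 C)) - 2`.

In the starting files `LegendreWindows`, `LegendreTuplesAllHeights` the degree is fixed, the exponents have no explicit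
dependence on it, the number of exceptions in a window grows exponentially with the degree, and the coefficients are in
a `ℚ`-space of bounded dimension.

The proof. The restricted monomials of degree at most `Δ` in the functions `K`, `E` and their companions are a
G-system with a constant which is only exponential in `Δ` (`Pool.Agent.R351.GD.fin_exp`); the exponent in the theorem
on the values of G-functions at `1 / t` is polynomial in the number of functions (`Pool.Agent.R351.GD.gfin_exp`); the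
elimination of the unknown constants by Hilbert functions (`Pool.Agent.R351.GD.awh_exp`) changes the degree by a
polynomial and costs one exceptional integer for each constant: `π`, `log t` and the `w_j`.
-/

set_option autoImplicit false

namespace Pool.Agent.Results.MP_caab05_ag.LegendreGrowingDegrees

open Module

/-- Complete elliptic integral of the first kind, `K(s) = ∫_0^{π/2} dθ / √(1 - s sin² θ)`. -/
noncomputable def K (s : ℝ) : ℝ := ∫ θ in (0 : ℝ)..(Real.pi / 2), 1 / √(1 - s * Real.sin θ ^ 2)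

/-- Complete elliptic integral of the second kind, `E(s) = ∫_0^{π/2} √(1 - s sin² θ) dθ`. -/
noncomputable def E (s : ℝ) : ℝ := ∫ θ in (0 : ℝ)..(Real.pi / 2), √(1 - s * Real.sin θ ^ 2)

/-- The `3k` numbers `K(1/t_i)`, `E(1/t_i)`, `K(1 - 1/t_i)`, for `i = 1, …, k`. -/
noncomputable def periods {k : ℕ} (t : Fin k → ℕ) (x : Fin k × Fin 3) : ℂ :=
  ![(K (1 / (t x.1 : ℝ)) : ℂ), (E (1 / (t x.1 : ℝ)) : ℂ), (K (1 - 1 / (t x.1 : ℝ)) : ℂ)] x.2

/-- A nonzero polynomial of total degree at most `δ` over some number field of degree at most `δ` vanishes at `π` and the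
`3k` numbers `K(1/t_i)`, `E(1/t_i)`, `K(1 - 1/t_i)`. -/
def PeriodRelation {k : ℕ} (δ : ℕ) (t : Fin k → ℕ) : Prop :=
  ∃ F : IntermediateField ℚ ℂ, FiniteDimensional ℚ F ∧ finrank ℚ F ≤ δ ∧
    ∃ P : MvPolynomial (Option (Fin k × Fin 3)) F, P ≠ 0 ∧ P.totalDegree ≤ δ ∧
      MvPolynomial.aeval (fun o : Option (Fin k × Fin 3) => o.elim (Real.pi : ℂ) (periods t)) P = 0

/-- A polynomial of total degree at most `δ` over some number field of degree at most `δ` vanishes at `π`, the `w_j` and
the `3k` numbers `K(1/t_i)`, `E(1/t_i)`, `K(1 - 1/t_i)`, but it does not vanish after the substitution of `π` and the `w_j`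
alone. -/
def Related {q k : ℕ} (δ : ℕ) (w : Fin q → ℂ) (t : Fin k → ℕ) : Prop :=
  ∃ F : IntermediateField ℚ ℂ, FiniteDimensional ℚ F ∧ finrank ℚ F ≤ δ ∧
    ∃ P : MvPolynomial (Option (Fin q) ⊕ Fin k × Fin 3) F, P.totalDegree ≤ δ ∧
      MvPolynomial.aeval (Sum.elim (fun o : Option (Fin q) => o.elim (Real.pi : ℂ) w) (periods t)) P = 0 ∧
      MvPolynomial.aeval (Sum.elim (fun o : Option (Fin q) => MvPolynomial.C (o.elim (Real.pi : ℂ) w))
        MvPolynomial.X) P ≠ (0 : MvPolynomial (Fin k × Fin 3) ℂ)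

/-- **Main result.** -/
theorem result (k q : ℕ) : ∃ C : ℕ, ∀ (δ : ℕ) (w : Fin q → ℂ),
    (∀ H n : ℕ, (H + 2) ^ ((δ + 2) ^ C) ≤ n → ∃ S : Finset ℕ, S.card ≤ q + 2 ∧
      ∀ t : Fin k → ℕ, Function.Injective t → (∀ i, n ≤ t i ∧ t i ≤ n + H ∧ t i ∉ S) → ¬ Related δ w t) ∧
    (∀ T : ℕ, 1 ≤ T → {t : Fin k → ℕ | (∀ i, 2 ≤ t i ∧ t i ≤ T) ∧ Related δ w t}.Finite ∧
      ({t : Fin k → ℕ | (∀ i, 2 ≤ t i ∧ t i ≤ T) ∧ Related δ w t}.ncard : ℝ) ≤
        C * (T : ℝ) ^ ((k : ℝ) - 1 / ((δ : ℝ) + 2) ^ C)) ∧
    (∀ t : Fin k → ℕ, PeriodRelation δ t → Related δ w t) := by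
  classical
  obtain ⟨E₁, ⟨C₁, hC₁⟩, h₁⟩ := Pool.Agent.R351.GD.leg_window k q
  obtain ⟨C₂, h₂⟩ := Pool.Agent.R351.GD.leg_tuples k (q + 1)
  refine ⟨C₁ + C₂, fun δ w => ⟨fun H n hn => ?_, fun T hT => ?_, fun t ht => ?_⟩⟩
  · have hE : E₁ δ ≤ (δ + 2) ^ (C₁ + C₂) := (hC₁ δ).trans (Nat.pow_le_pow_right (by omega) (by omega))
    exact h₁ δ H n ((Nat.pow_le_pow_right (by omega) hE).trans hn) (Fin q) w (by rw [Fintype.card_fin])
  · have hset : {t : Fin k → ℕ | (∀ i, 2 ≤ t i ∧ t i ≤ T) ∧ Related δ w t} ⊆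
        (((Fintype.piFinset fun _ : Fin k => (Finset.Icc 1 T).filter fun n => 2 ≤ n).filter fun t =>
          Pool.Agent.R351.GD.RelK δ (Fin.cons (Real.pi : ℂ) w : Fin (q + 1) → ℂ)
            (Pool.Agent.Y113.tup Pool.Agent.Y113.per t) : Finset (Fin k → ℕ)) : Set (Fin k → ℕ)) := by
      rintro t ⟨ht1, ht2⟩
      rw [Finset.mem_coe, Finset.mem_filter, Fintype.mem_piFinset]
      refine ⟨fun i => Finset.mem_filter.2 ⟨Finset.mem_Icc.2 ⟨?_, (ht1 i).2⟩, (ht1 i).1⟩, ?_⟩
      · have := (ht1 i).1
        omega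
      · have h3 : Pool.Agent.R351.GD.RelK δ (fun o : Option (Fin q) => o.elim (Real.pi : ℂ) w)
            (Pool.Agent.Y113.tup Pool.Agent.Y113.per t) := ht2
        exact h3.embed (Fin.cons (Real.pi : ℂ) w : Fin (q + 1) → ℂ) (fun o => o.elim 0 Fin.succ)
          (by rintro (_ | j) <;> simp) (Equiv.refl _)
    refine ⟨(Finset.finite_toSet _).subset hset, ?_⟩
    have hcard := Set.ncard_le_ncard hset (Finset.finite_toSet _)
    rw [Set.ncard_coe_finset] at hcard
    refine (Nat.cast_le.2 hcard).trans ((h₂ δ _ T hT).trans ?_)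
    have hT1 : (1 : ℝ) ≤ T := by exact_mod_cast hT
    have hpow : ((δ : ℝ) + 2) ^ C₂ ≤ ((δ : ℝ) + 2) ^ (C₁ + C₂) :=
      pow_le_pow_right₀ (by linarith [(Nat.cast_nonneg δ : (0 : ℝ) ≤ δ)]) (by omega)
    have hpos : 0 < ((δ : ℝ) + 2) ^ C₂ := by positivity
    refine mul_le_mul ?_ (Real.rpow_le_rpow_of_exponent_le hT1 ?_) (by positivity) (by positivity)
    · push_cast
      linarith [(Nat.cast_nonneg C₁ : (0 : ℝ) ≤ C₁)]
    · have := one_div_le_one_div_of_le hpos hpow
      linarith
  · obtain ⟨F, hF, hFd, P, hne, hP, hP0⟩ := ht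
    exact Pool.Agent.R351.GD.relK_of_pi (periods t) w F hF hFd P hP hP0 hne

end Pool.Agent.Results.MP_caab05_ag.LegendreGrowingDegrees
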