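import Pool.Agent.R920.PD.Main2

/-!
# The weak form of the period conjecture and the proportion of independent periods

Let `X` be a smooth projective variety over the field `F` of algebraic numbers, `G` the motivic
Galois group of `X` (the group of the automorphisms of the cohomology of `X` which respect the
motivated classes on all powers of `X`, up to the Tate twist), `p n` the number of periods of
`X ^ n` which are linearly independent over `F`, and `f n` the number of linearly independent
motivic periods of `X ^ n`, functions on the torsor of `G` given by the comparison isomorphism.

The quotient `f n / p n` converges to an element `N` of `{1, 2, …, ∞}`. We have `N < ∞` if and only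
if the transcendence degree of the field generated by the periods of `X` is equal to the dimension
of `G`, and `N = 1` if and only if the strong form of the conjecture holds for `X`. Thus the weak
form holds for `X` if and only if a positive proportion of the motivic periods of the powers of
`X` is linearly independent, and then the proportion converges to `1 / N`, is at least `1 / N` for
every power, and the strong form holds if it is larger than `1 / 2` in the limit.

The strong form is effective: if not all linear relations between the periods of `X ^ d` are
motivic then `f n ≥ (2 - 2 d b / (n + 1)) p n` for all `n`, where `b` is the number of linearly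
independent periods of `X`, and even `(n + 1) p n ≤ 3 d b f n` for all `n` if the torsor is
connected.
-/

open CategoryTheory AlgebraicGeometry Module

universe u v

namespace Pool.Agent.Results.MP_caab05_ag.PositiveProportion

open Pool.Agent.H914 Pool.Agent.H914.VarClass Pool.Agent.H914.VarClass.Obj
  Pool.Agent.H914.WeilCohomology Pool.Agent.Y133.Per Pool.Agent.R920.PD
open Pool.Agent.Y133.Half (pw HasIndex)

variable {k : Type u} [Field k] {𝒱 : VarClass k} {ops : CycleOps 𝒱}

/-- **The weak form of the conjecture and the proportion of independent periods.** -/
theorem result (W : WeilCohomology.{u, v} ops) [Algebra W.K ℂ] {F : Subfield ℂ} [IsAlgClosed F]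
    (D : DeRham W F) (X : 𝒱.Obj) [Nontrivial (W.H X)] (p f : ℕ → ℕ)
    (hp : ∀ n, p n = finrank F (periods D (pw X n)))
    (hf : ∀ n, f n = finrank F (formalPeriods D (motivated W) X n)) :
    ∃ N : ℕ∞, 1 ≤ N ∧ HasIndex f p N ∧ (∀ r : ℕ, N = r → ∀ n, f n ≤ r * p n) ∧
      (N ≠ ⊤ ↔ WeakPeriodConjecture D (motivated W) X) ∧
      (N = 1 ↔ PeriodConjecture D (motivated W) X) ∧
      (∀ d n, p d = f d ∨ ((2 : ℝ) - 2 * (d + 1) * p 0 / (n + 2)) * p n ≤ f n) ∧
      (Irreducible D (motivated W) X →
        ∀ d n, p d = f d ∨ (n + 2) * p n ≤ 3 * (d + 1) * p 0 * f n) := by
  refine periods_law2 (C := motivated W) D (fun P hP => ?_) p f hp hf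
  have h := hP.cl X 0 X.V.fundCycle X.V.fundCycle_mem
  rw [W.cl_fund] at h
  exact h

end Pool.Agent.Results.MP_caab05_ag.PositiveProportion
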