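import Pool.Agent.R918.Tor

set_option autoImplicit false

/-!
# Torsors which contain the periods of abelian varieties of unitary type: Mumford-Tate groups with
# a centre

Let `A` be an abelian variety of dimension `g` over the field `ℚ̄` of algebraic numbers. By the theorem
of André the group `G_mod` for `H^1(A)` is the Mumford-Tate group `MT(A)`, and the matrix `β` of the
periods is a point of a torsor of this group, defined over `ℚ̄`. The conjecture of Grothendieck (weak
form), `trdeg ℚ̄(β) = dim MT(A)`, implies that `β` is the generic point of this torsor; in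
particular, if an algebraic group `G ⊆ GL(H^1(A, ℚ))` over `ℚ` has a torsor over `ℚ̄` which contains
`β`, then `G` contains `MT(A)`. We prove this consequence for a class of abelian varieties whose
Mumford-Tate groups have a centre (which is larger than the group of the homotheties) and whose Hodge
structures are given by exterior algebras.

Let `𝔤` be the Lie algebra of the endomorphisms of `H_1(A, ℚ)` that annihilate all classes which are at
the same time Hodge classes and de Rham-Betti classes (`InLie`); it is the Lie algebra of the Hodge
group of `A`.

**Theorem.** Assume that `𝔤 ⊗ ℂ` is of unitary type, of even rank `n` (`TypeUnitary`): there are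
creation and annihilation operators `a σ i`, `b σ i` (`σ < k`, `i < n`) on `H_1(A, ℂ)`, which satisfy
the canonical anticommutation relations, such that `𝔤 ⊗ ℂ` is contained in the span of the operators
`a σ i * b σ j - b σ j * a σ i`, which is a sum of `k` Lie algebras `gl(n)` (one for each colour `σ`),
acting on a sum of copies of the tensor product of the `k` exterior algebras of the standard
representations, and generates an associative algebra which contains the `a σ i * b σ j`. Assume that
`k = 1`, or that the centre of `𝔤` is rigid (`RigidCentre`). Let `G` be an algebraic subgroup of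
`GL(H^1(A, ℚ))`, defined over `ℚ`, and let `P` be a torsor of `G`, defined over `ℚ̄`, in the space of the
isomorphisms from `H^1_dR(A / ℚ̄) ⊗ ℂ` to `H^1(A, ℂ)`, which contains the comparison isomorphism. Then
`G` contains the Mumford-Tate group of `A`.

The group `G` is not assumed to be reductive (or connected), and no relation between `G` and the Hodge
classes or de Rham-Betti classes is assumed. The theorem UnitaryKugaSatake (MP_f11a48_ag) says that, for
the same abelian varieties, all de Rham-Betti classes are Hodge classes; this corresponds to the
statement above for one group `G`, the group of the automorphisms which respect all de Rham-Betti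
classes. A general `G` is the stabilizer of a line (theorem of Chevalley), and so one has to deal with
tensors which are respected by the comparison isomorphism only up to an unknown complex factor; for
example `G` could contain the elements `X + c` (`X` in the centre of `𝔤`, `c` a homothety) but not `X`.
Nothing is assumed about the periods: `AbVar` is the description of an abelian variety over `ℚ̄` by theta
functions (see `Pool/Agent/Y102/AVDefs.lean`), and the theorems about transcendental numbers which are
used (the theorem of Schneider and Lang, the transcendence of `π`) are proved in this repository.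

## Kuga-Satake varieties

Let `X` be a K3 surface over `ℚ̄` (or a hyperkähler variety, or a cubic fourfold), let `T` be its
transcendental lattice, and assume that the field `E` of the endomorphisms of the Hodge structure `T` is
a CM field, of degree `2 k`. Let `n` be the dimension of `T` over `E`. The Hodge group of `T` is a
unitary group (Zarhin), and `T ⊗ ℂ` is the sum of totally isotropic spaces `W_σ` and `W_σ'` of dimension
`n`, in duality (`σ = 1, …, k`). The first homology of the Kuga-Satake variety `A` of `T` is the even
Clifford algebra `C⁺(T)`, and the Lie algebra of its Hodge group is the Lie algebra of the Hodge group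
of `T` acting by left multiplication. Let `w_i` be a basis of `W_σ` and let `w_i'` be the dual basis of
`W_σ'`, so that `w_i w_j' + w_j' w_i = δ_{ij}` in the Clifford algebra, and let `e` be a vector of
`T ⊗ ℂ` with `e ^ 2 = 1`. The operators `a σ i : x ↦ w_i x e` and `b σ i : x ↦ w_i' x e` on `C⁺(T ⊗ ℂ)`
satisfy the hypothesis, if `n` is even. So the theorem applies to the Kuga-Satake varieties of all K3
surfaces over `ℚ̄` with multiplication by an imaginary quadratic field `E` (`k = 1`) such that the rank
of `T` is divisible by four, for example for the general members of the families of elliptic K3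
surfaces `y ^ 2 = x ^ 3 + f(t)` (`f` of degree `12`, `n = 10`) and `y ^ 2 = x ^ 3 + f(t) x` (`f` of
degree `8`, `n = 6`). If the degree of `E` is larger, the condition `RigidCentre` is a condition on the
field `E` alone: the centre of `𝔤` is the space of the `x` in `E` with `x̄ = -x`, with the eigenvalues
`∑ σ, (k_σ - n / 2) σ(x)` (`0 ≤ k_σ ≤ n`), and the condition means that the numbers `σ(x)` satisfy no
linear relations over `ℚ` if the sums `∑ σ, ± σ(x)` are all different. This is true if `E` has degree
four.

## Proof

Let `L` be the Lie algebra of `G`; it is defined over `ℚ` and stable under linear maps of the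
coefficients, so it contains the rational components of all logarithmic derivatives of the matrix
`β`. By the theorem of Schneider and Lang the Lie algebra `𝔮` of the elements of `𝔤` which are in `L` up
to a homothety acts semisimply on `H_1(A, ℚ)` and has the same commutant as `𝔤`
(`Pool.Agent.R917.Pt.full`). By the theorem on Lie algebras of UnitaryKugaSatake (`n` is even) it
contains the derived algebra `𝔤'` of `𝔤`, and as `𝔤' = [𝔤', 𝔤']`, so does `L`.

It remains to deal with the centre and with the homotheties. The new ingredient is the passage to the
smallest algebraic group whose Lie algebra contains a given semisimple endomorphism (replicas in the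
sense of Chevalley), `Pool.Agent.R918.replica`: if the matrix `X` is diagonalizable with eigenvalues
`x_i`, if `exp(t X)` is in the algebraic group `G` for all complex `t`, and if all relations
`∑ α_i x_i = ∑ β_i x_i` with natural numbers `α_i`, `β_i` hold for the eigenvalues `y_i` of `Y`, for the
same eigenvectors, then `exp(t Y)` is in `G`. This follows from the linear independence of the
characters `exp(μ t)` of the additive group. The eigenvalues of an element `X` of the centre of `𝔤` are
purely imaginary (positivity of the Rosati involution), so the relations of this kind for `X + c`, where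
`c` is a rational number, are relations for `X`, and the number of the summands on both sides is the
same if `c ≠ 0` (`Pool.Agent.R918.mem_of_dom`). As the eigenvalues come in pairs `± x`, all relations
are consequences of relations `∑ x_i = 0`. So if `X + c` is in `L` then `L` contains all elements `Y` of
the centre whose eigenvalues satisfy the relations of `X`, in particular `X`. If `X` is generic in the
intersection of the centre with `𝔮`, then it satisfies the hypothesis of `RigidCentre`, so that `L`
contains the centre of `𝔤` (`Pool.Agent.R918.centre_mem`). Finally, as `2 π i` is transcendental, the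
comparison of two logarithmic derivatives shows that `L` contains the homotheties.
-/

open Module Matrix Pool.Agent.Y102 Pool.Agent.W516.DR Pool.Agent.H204R3.GP

noncomputable section

namespace Pool.Agent.Results.MP_caab05_ag.UnitaryTorsors

variable {g : ℕ} (A : AbVar g)

/-! ### The hypothesis on the Lie algebra of the Hodge group -/

/-- The multilinear forms in `2m` variables in the rational homology. -/
abbrev Form (m : ℕ) : Type := MultilinearMap ℚ (fun _ : Fin m × Fin 2 => A.H1) ℚ

/-- `φ` is a de Rham-Betti class in `H^1(A) ^ {⊗ 2m} (m)`. -/
def IsDRB {m : ℕ} (φ : Form A m) : Prop :=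
  IsDeRhamBettiForm QBar A.dR (2 * Real.pi * Complex.I) m φ

/-- `φ` is a Hodge class in `H^1(A) ^ {⊗ 2m} (m)`. -/
def IsHodge {m : ℕ} (φ : Form A m) : Prop := IsHodgeTensor (A.per : A.H1 →+ (Fin g → ℂ)) φ

/-- The endomorphism `X` annihilates the form `φ` (as a derivation). -/
def Annihilates {m : ℕ} (X : Module.End ℚ A.H1) (φ : Form A m) : Prop :=
  ∀ v, ∑ k, φ (Function.update v k (X (v k))) = 0

/-- `X` is in the Lie algebra `𝔤`: it annihilates all classes that are Hodge classes and
de Rham-Betti classes. -/
def InLie (X : Module.End ℚ A.H1) : Prop :=
  ∀ (m : ℕ) (φ : Form A m), IsHodge A φ → IsDRB A φ → Annihilates A X φ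

/-- The algebra of the endomorphisms of `H_1(A, ℂ)`, as matrices for the basis of the lattice. -/
abbrev EndC (_ : AbVar g) : Type := Matrix (Fin (2 * g)) (Fin (2 * g)) ℂ

/-- The matrix of the extension of an endomorphism of `H_1(A, ℚ)` to `H_1(A, ℂ)`. -/
def toC (X : Module.End ℚ A.H1) : EndC A := Matrix.of fun i j => (X (Pi.single j 1) i : ℂ)

/-- The complex Lie algebra `𝔤 ⊗ ℂ`, acting on `H_1(A, ℂ)`. -/
def lieC : Submodule ℂ (EndC A) := Submodule.span ℂ {Y | ∃ X, InLie A X ∧ Y = toC A X}

/-- The canonical anticommutation relations for the creation operators `a σ i` and the annihilation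
operators `b σ i`. -/
def Car {k n : ℕ} (a b : Fin k → Fin n → EndC A) : Prop :=
  (∀ σ i τ j, a σ i * a τ j = -(a τ j * a σ i)) ∧
  (∀ σ i τ j, b σ i * b τ j = -(b τ j * b σ i)) ∧
  ∀ σ i τ j, a σ i * b τ j + b τ j * a σ i = if σ = τ ∧ i = j then 1 else 0

/-- The sum of the `k` Lie algebras `gl(n)`, one for each colour. -/
def glSum {k n : ℕ} (a b : Fin k → Fin n → EndC A) : Submodule ℂ (EndC A) :=
  Submodule.span ℂ {Y | ∃ σ i j, Y = a σ i * b σ j - b σ j * a σ i}

/-- The Lie algebra `𝔤 ⊗ ℂ` is contained in a sum of `k` Lie algebras `gl(n)` which acts on `H_1(A, ℂ)`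
by creation and annihilation operators, and generates an associative algebra which contains the
`a σ i * b σ j`. -/
def TypeUnitary (k n : ℕ) : Prop :=
  ∃ a b : Fin k → Fin n → EndC A, Car A a b ∧ lieC A ≤ glSum A a b ∧
    ∀ σ i j, a σ i * b σ j ∈ Algebra.adjoin ℂ (lieC A : Set (EndC A))

/-- `X` is an element of the centre of `𝔤`. -/
def InCentre (X : Module.End ℚ A.H1) : Prop := InLie A X ∧ ∀ Y, InLie A Y → Y * X = X * Y

/-- The endomorphisms which commute with `X` and with the derived algebra of `𝔤` commute with the
centre of `𝔤`. -/
def Generates (X : Module.End ℚ A.H1) : Prop :=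
  ∀ T : Module.End ℚ A.H1,
    (∀ Y, InLie A Y → ∀ Z, InLie A Z → T * (Y * Z - Z * Y) = (Y * Z - Z * Y) * T) →
    T * X = X * T → ∀ Z, InCentre A Z → T * Z = Z * T

/-- All relations `∑ i, x i = 0` between eigenvalues of `X` imply the relation `∑ i, y i = 0` between
the eigenvalues of `Y` for the same eigenvectors. -/
def RelationsOf (X Y : Module.End ℚ A.H1) : Prop :=
  ∀ (r : ℕ) (v : Fin r → Fin (2 * g) → ℂ) (x y : Fin r → ℂ),
    (∀ i, v i ≠ 0 ∧ Matrix.mulVec (toC A X) (v i) = x i • v i ∧
      Matrix.mulVec (toC A Y) (v i) = y i • v i) → ∑ i, x i = 0 → ∑ i, y i = 0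

/-- The centre of `𝔤` is rigid: the relations between the eigenvalues of a generating element of the
centre hold for all elements of the centre. -/
def RigidCentre : Prop :=
  ∀ X, InCentre A X → Generates A X → ∀ Y, InCentre A Y → RelationsOf A X Y

/-! ### Algebraic groups, periods and the Mumford-Tate group -/

/-- A subgroup of `GL_R(ℂ)` defined by polynomials with rational coefficients. -/
def IsAlgebraicSubgroup {R : Type} [Fintype R] [DecidableEq R] (G : Subgroup (GL R ℂ)) : Prop :=
  ∃ I : Set (MvPolynomial (R × R) ℚ), ∀ x : GL R ℂ, x ∈ G ↔
    ∀ p ∈ I, MvPolynomial.aeval (fun b : R × R => (x : Matrix R R ℂ) b.1 b.2) p = 0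

/-- The comparison isomorphism: the periods of the basis of `H^1_dR(A / ℚ̄)` (the columns) on the
basis of the lattice (the rows). -/
def periodMatrix : Matrix (Fin (2 * g)) (Fin g ⊕ Fin g) ℂ :=
  Matrix.of fun j i => A.dR i (Pi.single j 1)

/-- The torsor `G · T⁻¹` of `G`: the isomorphisms `F` such that `F T` is an element of `G`. It is
defined over `ℚ̄` if `T` is a matrix with algebraic entries. -/
def torsor {g : ℕ} (G : Subgroup (GL (Fin (2 * g)) ℂ))
    (T : Matrix (Fin g ⊕ Fin g) (Fin (2 * g)) ℂ) : Set (Matrix (Fin (2 * g)) (Fin g ⊕ Fin g) ℂ) :=
  {F | ∃ x ∈ G, (x : Matrix (Fin (2 * g)) (Fin (2 * g)) ℂ) = F * T}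

/-- The Hodge structure of `H^1(A)`: the complex number `z` acts on `H_1(A, ℝ) = ℂ ^ g` by
multiplication, and on `H^1(A, ℝ)` by the transposed map, here in the basis of `H^1(A, ℚ)` which is
dual to the basis of the lattice. -/
def hodge (z : ℂ) : Matrix (Fin (2 * g)) (Fin (2 * g)) ℂ :=
  Matrix.of fun i j => ((A.lam.repr (z • A.lam i) j : ℝ) : ℂ)

/-- The Mumford-Tate group of `H^1(A)`: the smallest algebraic group over `ℚ` which contains the
image of the Deligne torus. -/
def mumfordTate : Subgroup (GL (Fin (2 * g)) ℂ) :=
  sInf {G | IsAlgebraicSubgroup G ∧ ∀ z : ℂ, z ≠ 0 → ∃ x ∈ G,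
    (x : Matrix (Fin (2 * g)) (Fin (2 * g)) ℂ) = hodge A z}

/-- **Theorem.** Let `A` be an abelian variety of unitary type, of even rank, with one colour or with
a rigid centre. If the comparison isomorphism is in a torsor over `ℚ̄` of an algebraic group `G` over
`ℚ`, then `G` contains the Mumford-Tate group of `A`. -/
theorem result (g : ℕ) (A : AbVar g) (k n : ℕ) (hn : Even n) (h : TypeUnitary A k n)
    (hz : k = 1 ∨ RigidCentre A) (G : Subgroup (GL (Fin (2 * g)) ℂ)) (hG : IsAlgebraicSubgroup G)
    (T : Matrix (Fin g ⊕ Fin g) (Fin (2 * g)) ℂ) (hT : ∀ i j, IsAlgebraic ℚ (T i j))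
    (hP : periodMatrix A ∈ torsor G T) : mumfordTate A ≤ G := by
  obtain ⟨a, b, ⟨h1, h2, h3⟩, h4, h5⟩ := h
  obtain ⟨x, hx, hxT⟩ := hP
  have hpt := Pool.Agent.R917.pt_of (A := A) hG hT hx hxT
  have key := R918.full_unitary' hpt.full hn (a := fun p => a p.1 p.2) (b := fun p => b p.1 p.2)
    (fun p q => h1 _ _ _ _) (fun p q => h2 _ _ _ _)
    (fun p q => by
      rw [h3]
      by_cases hpq : p = q
      · rw [if_pos hpq, if_pos ⟨congrArg Prod.fst hpq, congrArg Prod.snd hpq⟩]
      · rw [if_neg hpq, if_neg (fun h => hpq (Prod.ext h.1 h.2))]) h4 h5
  have hc : A.CN ≤ Pool.Agent.R917.lieQ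
      {M : Matrix (Fin (2 * g)) (Fin (2 * g)) ℂ | ∃ x ∈ G, (x : Matrix _ _ ℂ) = M} := by
    rcases hz with hk | hz
    · exact R918.centre_mem_of_le hpt (key.2 hk)
    · refine R918.centre_mem hpt fun X hX hg Y hY => ?_
      refine dom_of_matrix (hz X ⟨hX.1, hX.2⟩ (fun T hT hTX Z hZ => ?_) Y ⟨hY.1, hY.2⟩)
      exact hg T hT hTX Z ⟨hZ.1, hZ.2⟩
  obtain ⟨l1, l2⟩ := R918.lie_of_der hpt key.1 hc
  refine sInf_le ⟨hG, fun z hz => ?_⟩
  exact Pool.Agent.R917.hm_mem hpt.grp l1 l2 hz

end Pool.Agent.Results.MP_caab05_ag.UnitaryTorsors
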